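import Pool.Agent.TH598.KG.Base

/-! Algebra in the chart: the reference metric, the equivariance of vector densities. -/

set_option autoImplicit false

open scoped Manifold ContDiff Topology ComplexConjugate MatrixGroups UpperHalfPlane Matrix
open MeasureTheory Set Filter

namespace Pool.Agent.TH649.KG

open Pool.Agent.W549.CY (Cn dz dzbar HermitianMetric chernRicci chernScalar)
open Pool.Agent.W711.KC (jj nn)
open Pool.Agent.TH598.KG

theorem Nn_pos {p : Cn 3} (hp : p ∈ UU) : 0 < Nn p := by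
  have h1 : 0 < (p 0).im := hp
  have h2 := Complex.normSq_nonneg (p 1)
  have h3 := Complex.normSq_nonneg (p 2)
  unfold Nn nsq
  linarith

theorem nsq_nonneg (p : Cn 3) : 0 ≤ nsq p := by
  have h2 := Complex.normSq_nonneg (p 1)
  have h3 := Complex.normSq_nonneg (p 2)
  unfold nsq
  linarith

/-- the Hermitian form of the reference metric -/
theorem hf_g0 (p : Cn 3) (v : Cn 3) : (hf (g0 p) v).re =
    Complex.normSq (v 0) / (2 * (p 0).im ^ 2) + (Complex.normSq (v 1) + Complex.normSq (v 2)) / Nn p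
      - Complex.normSq (conj (p 1) * v 1 + conj (p 2) * v 2 - Complex.I / 2 * v 0) / (Nn p) ^ 2 := by
  have h : hf (g0 p) v = ((Complex.normSq (v 0) / (2 * (p 0).im ^ 2) +
      (Complex.normSq (v 1) + Complex.normSq (v 2)) / Nn p
      - Complex.normSq (conj (p 1) * v 1 + conj (p 2) * v 2 - Complex.I / 2 * v 0) / (Nn p) ^ 2 : ℝ)
        : ℂ) := by
    push_cast
    simp only [← Complex.mul_conj, map_sub, map_add, map_mul, map_div₀, Complex.conj_I,
      Complex.conj_conj, map_ofNat]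
    simp only [hf, g0, Th, omC, Matrix.add_apply, Matrix.smul_apply, Fin.sum_univ_three,
      Matrix.of_apply, Matrix.cons_val', Matrix.cons_val_zero, Matrix.cons_val_one,
      Matrix.cons_val_two, Matrix.head_cons, Matrix.tail_cons, Matrix.empty_val',
      Matrix.cons_val_fin_one, Matrix.head_fin_const, smul_eq_mul]
    generalize (Nn p : ℂ) = N
    generalize ((p 0).im : ℂ) = y
    ring_nf
    rw [Complex.I_sq]
    ring
  rw [h, Complex.ofReal_re]

theorem normSq_I2 (v : ℂ) : Complex.normSq (Complex.I / 2 * v) = Complex.normSq v / 4 := by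
  rw [map_mul, map_div₀, Complex.normSq_I]
  norm_num
  ring

theorem hf_g0_eq {p : Cn 3} (hp : p ∈ UU) (v : Cn 3) : (hf (g0 p) v).re =
    Complex.normSq (v 0) * (1 / (2 * (p 0).im ^ 2) - 1 / (4 * (p 0).im * Nn p)) +
    (Complex.normSq (p 1 * v 2 - p 2 * v 1) +
      (Complex.normSq ((p 0).im * v 1 + p 1 * (Complex.I / 2 * v 0)) +
        Complex.normSq ((p 0).im * v 2 + p 2 * (Complex.I / 2 * v 0))) / (p 0).im) / Nn p ^ 2 := by
  have hy : (p 0).im ≠ 0 := (show 0 < (p 0).im from hp).ne'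
  have hN := (Nn_pos hp).ne'
  have hNe : Nn p = (p 0).im + ((p 1).re * (p 1).re + (p 1).im * (p 1).im +
      ((p 2).re * (p 2).re + (p 2).im * (p 2).im)) := rfl
  rw [hf_g0]
  have h1 : ∀ N y a b c d e : ℝ, N ≠ 0 → y ≠ 0 →
      N ^ 2 * a / (2 * y ^ 2) + N * b - c = a * (N ^ 2 / (2 * y ^ 2) - N / (4 * y)) + (d + e / y) →
      a / (2 * y ^ 2) + b / N - c / N ^ 2 = a * (1 / (2 * y ^ 2) - 1 / (4 * y * N)) +
        (d + e / y) / N ^ 2 := by
    intro N y a b c d e hN hy h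
    field_simp at h ⊢
    linear_combination h
  apply h1 _ _ _ _ _ _ _ hN hy
  rw [hNe]
  simp only [Complex.normSq_apply, Complex.add_re, Complex.add_im, Complex.sub_re, Complex.sub_im,
    Complex.mul_re, Complex.mul_im, Complex.conj_re, Complex.conj_im, Complex.ofReal_re,
    Complex.ofReal_im, Complex.div_ofNat_re, Complex.div_ofNat_im, Complex.I_re, Complex.I_im]
  field_simp
  ring

theorem g0_pos {p : Cn 3} (hp : p ∈ UU) {v : Cn 3} (hv : v ≠ 0) : 0 < (hf (g0 p) v).re := by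
  have hy : 0 < (p 0).im := hp
  have hN := Nn_pos hp
  have hNy : (p 0).im ≤ Nn p := by
    have := nsq_nonneg p
    unfold Nn
    linarith
  rw [hf_g0_eq hp]
  have hc : 0 < 1 / (2 * (p 0).im ^ 2) - 1 / (4 * (p 0).im * Nn p) := by
    have : 1 / (4 * (p 0).im * Nn p) < 1 / (2 * (p 0).im ^ 2) := by
      apply one_div_lt_one_div_of_lt (by positivity)
      nlinarith
    linarith
  by_cases h0 : v 0 = 0
  · have h12 : v 1 ≠ 0 ∨ v 2 ≠ 0 := by
      by_contra hcon
      push Not at hcon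
      apply hv
      funext i
      fin_cases i
      · exact h0
      · exact hcon.1
      · exact hcon.2
    rw [h0]
    simp only [mul_zero, add_zero, map_zero, zero_mul, zero_add]
    have hyc : ((p 0).im : ℂ) ≠ 0 := by exact_mod_cast hy.ne'
    have hpos : 0 < Complex.normSq ((p 0).im * v 1) + Complex.normSq ((p 0).im * v 2) := by
      rcases h12 with h | h
      · have h1 := Complex.normSq_pos.2 (mul_ne_zero hyc h)
        have h2 := Complex.normSq_nonneg ((p 0).im * v 2)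
        linarith
      · have h1 := Complex.normSq_pos.2 (mul_ne_zero hyc h)
        have h2 := Complex.normSq_nonneg ((p 0).im * v 1)
        linarith
    have h3 := Complex.normSq_nonneg (p 1 * v 2 - p 2 * v 1)
    positivity
  · have h1 := Complex.normSq_pos.2 h0
    have h3 := Complex.normSq_nonneg (p 1 * v 2 - p 2 * v 1)
    have h4 := Complex.normSq_nonneg ((p 0).im * v 1 + p 1 * (Complex.I / 2 * v 0))
    have h5 := Complex.normSq_nonneg ((p 0).im * v 2 + p 2 * (Complex.I / 2 * v 0))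
    positivity

theorem grad_aux (S y : ℝ) (u1 u2 v1 v2 ζ : ℂ) (hS : 0 ≤ S) (hy : 0 < y)
    (hsy : S * y = Complex.normSq u1 + Complex.normSq u2) :
    S * (1 + S) ^ 2 * ((4 * Complex.normSq ζ) / (2 * y ^ 2) +
      (Complex.normSq v1 + Complex.normSq v2) / (y * (1 + S)) -
      Complex.normSq (conj u1 * v1 + conj u2 * v2 - ζ) / (y * (1 + S)) ^ 2) -
      Complex.normSq ((conj u1 * v1 + conj u2 * v2 + S * ζ) / y) =
    (S * (2 * (1 + S) ^ 2 - 1 - S) * Complex.normSq ζ +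
      (1 + S) * Complex.normSq (u1 * v2 - u2 * v1)) / y ^ 2 := by
  have h1S : 1 + S ≠ 0 := by positivity
  have hy' := hy.ne'
  rw [map_div₀, Complex.normSq_ofReal]
  have h1 : S * (1 + S) ^ 2 * (2 * Complex.normSq ζ) + S * (1 + S) * y *
      (Complex.normSq v1 + Complex.normSq v2) - S * Complex.normSq (conj u1 * v1 + conj u2 * v2 - ζ)
      - Complex.normSq (conj u1 * v1 + conj u2 * v2 + S * ζ)
      = S * (2 * (1 + S) ^ 2 - 1 - S) * Complex.normSq ζ +
      (1 + S) * Complex.normSq (u1 * v2 - u2 * v1) := by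
    simp only [Complex.normSq_apply, Complex.add_re, Complex.add_im, Complex.sub_re, Complex.sub_im,
      Complex.mul_re, Complex.mul_im, Complex.conj_re, Complex.conj_im, Complex.ofReal_re,
      Complex.ofReal_im] at hsy ⊢
    linear_combination ((1 + S) * (v1.re * v1.re + v1.im * v1.im +
      (v2.re * v2.re + v2.im * v2.im))) * hsy
  rw [← h1]
  field_simp
  ring

/-- the gradient of `s` -/
theorem grad_bound {p : Cn 3} (hp : p ∈ UU) (v : Cn 3) :
    Complex.normSq ((conj (p 1) * v 1 + conj (p 2) * v 2 + ss p * (Complex.I / 2 * v 0)) / (p 0).im)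
      ≤ ss p * (1 + ss p) ^ 2 * (hf (g0 p) v).re := by
  have hy : 0 < (p 0).im := hp
  have hs : 0 ≤ ss p := div_nonneg (nsq_nonneg p) hy.le
  have hNs : Nn p = (p 0).im * (1 + ss p) := by
    unfold Nn ss
    field_simp
  have hsy : ss p * (p 0).im = Complex.normSq (p 1) + Complex.normSq (p 2) := by
    unfold ss
    rw [div_mul_cancel₀ _ hy.ne']
    rfl
  have key := grad_aux (ss p) (p 0).im (p 1) (p 2) (v 1) (v 2) (Complex.I / 2 * v 0) hs hy hsy
  have h0 : 4 * Complex.normSq (Complex.I / 2 * v 0) = Complex.normSq (v 0) := by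
    rw [normSq_I2]; ring
  rw [h0, ← hNs, ← hf_g0] at key
  have h3 := Complex.normSq_nonneg (p 1 * v 2 - p 2 * v 1)
  have h4 := Complex.normSq_nonneg (Complex.I / 2 * v 0)
  have h5 : 0 ≤ 2 * (1 + ss p) ^ 2 - 1 - ss p := by nlinarith
  have h6 : 0 ≤ (ss p * (2 * (1 + ss p) ^ 2 - 1 - ss p) * Complex.normSq (Complex.I / 2 * v 0) +
        (1 + ss p) * Complex.normSq (p 1 * v 2 - p 2 * v 1)) / (p 0).im ^ 2 := by positivity
  linarith

theorem g0_herm (p : Cn 3) : (g0 p).IsHermitian := by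
  rw [Matrix.IsHermitian]
  ext i j
  rw [Matrix.conjTranspose_apply]
  fin_cases i <;> fin_cases j <;>
  simp [g0, Th, omC]
  all_goals ring

theorem det_g0 {p : Cn 3} (hp : p ∈ UU) :
    (g0 p).det = (((p 0).im + 2 * nsq p : ℝ) : ℂ) / (4 * ((p 0).im : ℂ) * (Nn p : ℂ) ^ 4) := by
  have hy : ((p 0).im : ℂ) ≠ 0 := by exact_mod_cast (show 0 < (p 0).im from hp).ne'
  have hN : (Nn p : ℂ) ≠ 0 := by exact_mod_cast (Nn_pos hp).ne'
  have hNe : (Nn p : ℂ) = (p 0).im + (conj (p 1) * p 1 + conj (p 2) * p 2) := by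
    unfold Nn nsq
    push_cast
    rw [← Complex.normSq_eq_conj_mul_self, ← Complex.normSq_eq_conj_mul_self]
  have hnsq : ((nsq p : ℝ) : ℂ) = Nn p - (p 0).im := by
    unfold Nn
    push_cast
    ring
  rw [Matrix.det_fin_three]
  simp only [g0, Th, omC, Matrix.add_apply, Matrix.smul_apply,
      Matrix.of_apply, Matrix.cons_val', Matrix.cons_val_zero, Matrix.cons_val_one,
      Matrix.cons_val_two, Matrix.head_cons, Matrix.tail_cons, Matrix.empty_val',
      Matrix.cons_val_fin_one, Matrix.head_fin_const, smul_eq_mul]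
  push_cast
  rw [hnsq]
  have h1 : ∀ N y u1 u2 a1 a2 : ℂ, N ≠ 0 → y ≠ 0 → N = y + (a1 * u1 + a2 * u2) →
      (-(1 / (4 * N ^ 2)) + 1 / (4 * y ^ 2) + 1 / 2 * (1 / (2 * y ^ 2))) *
        (1 / N - a1 * u1 / N ^ 2 + 1 / 2 * 0) * (1 / N - a2 * u2 / N ^ 2 + 1 / 2 * 0) -
      (-(1 / (4 * N ^ 2)) + 1 / (4 * y ^ 2) + 1 / 2 * (1 / (2 * y ^ 2))) *
        (-(a1 * u2 / N ^ 2) + 1 / 2 * 0) * (-(a2 * u1 / N ^ 2) + 1 / 2 * 0) -
      (Complex.I / 2 * u1 / N ^ 2 + 1 / 2 * 0) * (-(Complex.I / 2 * a1 / N ^ 2) + 1 / 2 * 0) *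
        (1 / N - a2 * u2 / N ^ 2 + 1 / 2 * 0) +
      (Complex.I / 2 * u1 / N ^ 2 + 1 / 2 * 0) * (-(a1 * u2 / N ^ 2) + 1 / 2 * 0) *
        (-(Complex.I / 2 * a2 / N ^ 2) + 1 / 2 * 0) +
      (Complex.I / 2 * u2 / N ^ 2 + 1 / 2 * 0) * (-(Complex.I / 2 * a1 / N ^ 2) + 1 / 2 * 0) *
        (-(a2 * u1 / N ^ 2) + 1 / 2 * 0) -
      (Complex.I / 2 * u2 / N ^ 2 + 1 / 2 * 0) * (1 / N - a1 * u1 / N ^ 2 + 1 / 2 * 0) *
        (-(Complex.I / 2 * a2 / N ^ 2) + 1 / 2 * 0) = (y + 2 * (N - y)) / (4 * y * N ^ 4) := by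
    intro N y u1 u2 a1 a2 hN hy h
    have hi := Complex.I_sq
    have e : ∀ A s P Q i2 : ℂ, i2 = -1 → N = y + (P + Q) →
        (-(1 / (4 * N ^ 2)) + A) * ((1 / N - P / N ^ 2) * (1 / N - Q / N ^ 2) - P * Q / N ^ 4)
        + i2 / 4 / N ^ 4 * (P * (1 / N - Q / N ^ 2)) + i2 / 4 * (2 * P * Q) / N ^ 6
        + i2 / 4 / N ^ 4 * (Q * (1 / N - P / N ^ 2))
        = A * (y / N ^ 3) - 1 / (4 * N ^ 4) := by
      intro A s P Q i2 h2 h3
      rw [h2]
      have hy' : y = N - (P + Q) := by rw [h3]; ring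
      rw [hy']
      field_simp
      ring
    have e2 := e (1 / (4 * y ^ 2) + 1 / 2 * (1 / (2 * y ^ 2))) 0 (a1 * u1) (a2 * u2)
      (Complex.I ^ 2) hi h
    have e3 : (1 / (4 * y ^ 2) + 1 / 2 * (1 / (2 * y ^ 2))) * (y / N ^ 3) - 1 / (4 * N ^ 4)
        = (y + 2 * (N - y)) / (4 * y * N ^ 4) := by
      field_simp
      ring
    rw [← e3, ← e2]
    ring
  exact h1 _ _ _ _ _ _ hN hy hNe

end Pool.Agent.TH649.KG
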