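import Pool.Agent.TH649.KG.Eq

/-! Derivatives in the chart. -/

set_option autoImplicit false

open scoped Manifold ContDiff Topology ComplexConjugate MatrixGroups UpperHalfPlane Matrix
open MeasureTheory Set Filter

namespace Pool.Agent.TH649.KG

open Pool.Agent.W549.CY (Cn dz dzbar HermitianMetric chernRicci chernScalar)
open Pool.Agent.W711.KC (jj nn jj_ne im_mob det_eq)
open Pool.Agent.TH598.KG

theorem isOpen_UU : IsOpen UU := by
  exact isOpen_lt continuous_const (Complex.continuous_im.comp (continuous_apply 0))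

theorem dz_mul {j : Fin 3} {f g : Cn 3 → ℂ} {p : Cn 3} (hf : DifferentiableAt ℝ f p)
    (hg : DifferentiableAt ℝ g p) :
    dz j (fun q => f q * g q) p = dz j f p * g p + f p * dz j g p := by
  unfold dz
  have h : fderiv ℝ (fun q => f q * g q) p = f p • fderiv ℝ g p + g p • fderiv ℝ f p :=
    fderiv_fun_mul hf hg
  rw [h]
  simp only [add_apply, smul_apply, smul_eq_mul]
  ring

theorem dz_sum {j : Fin 3} {f : Fin 3 → Cn 3 → ℂ} {p : Cn 3}
    (hf : ∀ k, DifferentiableAt ℝ (f k) p) :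
    dz j (fun q => ∑ k, f k q) p = ∑ k, dz j (f k) p := by
  unfold dz
  have h : fderiv ℝ (fun q => ∑ k, f k q) p = ∑ k, fderiv ℝ (f k) p :=
    fderiv_fun_sum fun k _ => hf k
  rw [h]
  simp only [Fin.sum_univ_three, add_apply]
  ring

/-- the real derivative of `s` -/
noncomputable def Ls (p : Cn 3) : Cn 3 →L[ℝ] ℝ :=
  (p 0).im⁻¹ • ((2 * (p 1).re) • (Complex.reCLM.comp (ContinuousLinearMap.proj 1)) +
    (2 * (p 1).im) • (Complex.imCLM.comp (ContinuousLinearMap.proj 1)) +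
    (2 * (p 2).re) • (Complex.reCLM.comp (ContinuousLinearMap.proj 2)) +
    (2 * (p 2).im) • (Complex.imCLM.comp (ContinuousLinearMap.proj 2))) -
  (nsq p / (p 0).im ^ 2) • (Complex.imCLM.comp (ContinuousLinearMap.proj 0))

theorem hasFDerivAt_ss {p : Cn 3} (hp : p ∈ UU) : HasFDerivAt (𝕜 := ℝ) ss (Ls p) p := by
  have hy : (p 0).im ≠ 0 := (show 0 < (p 0).im from hp).ne'
  have hre : ∀ k : Fin 3, HasFDerivAt (𝕜 := ℝ) (fun q : Cn 3 => (q k).re)
      (Complex.reCLM.comp (ContinuousLinearMap.proj k) : Cn 3 →L[ℝ] ℝ) p := fun k =>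
    (Complex.reCLM.comp (ContinuousLinearMap.proj k : Cn 3 →L[ℝ] ℂ)).hasFDerivAt
  have him : ∀ k : Fin 3, HasFDerivAt (𝕜 := ℝ) (fun q : Cn 3 => (q k).im)
      (Complex.imCLM.comp (ContinuousLinearMap.proj k) : Cn 3 →L[ℝ] ℝ) p := fun k =>
    (Complex.imCLM.comp (ContinuousLinearMap.proj k : Cn 3 →L[ℝ] ℂ)).hasFDerivAt
  have hn : HasFDerivAt (𝕜 := ℝ) nsq ((2 * (p 1).re) • (Complex.reCLM.comp
      (ContinuousLinearMap.proj 1)) +
    (2 * (p 1).im) • (Complex.imCLM.comp (ContinuousLinearMap.proj 1)) +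
    (2 * (p 2).re) • (Complex.reCLM.comp (ContinuousLinearMap.proj 2)) +
    (2 * (p 2).im) • (Complex.imCLM.comp (ContinuousLinearMap.proj 2))) p := by
    have h1 := ((((hre 1).mul (hre 1)).add ((him 1).mul (him 1))).add
      (((hre 2).mul (hre 2)).add ((him 2).mul (him 2))))
    refine (h1.congr_fderiv ?_).congr_of_eventuallyEq (Filter.Eventually.of_forall fun q => ?_)
    · ext v
      simp
      ring
    · simp [nsq, Complex.normSq_apply]
  have hinv := (hasDerivAt_inv hy).comp_hasFDerivAt p (him 0)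
  have h2 := hn.mul hinv
  refine (h2.congr_fderiv ?_).congr_of_eventuallyEq (Filter.Eventually.of_forall fun q => ?_)
  · ext v
    simp [Ls]
    field_simp
    ring
  · simp [ss, div_eq_mul_inv]

theorem contDiffOn_ss : ContDiffOn ℝ ∞ ss UU := by
  have hre : ∀ k : Fin 3, ContDiff ℝ ∞ (fun q : Cn 3 => (q k).re) := fun k =>
    (Complex.reCLM.comp (ContinuousLinearMap.proj k : Cn 3 →L[ℝ] ℂ)).contDiff
  have him : ∀ k : Fin 3, ContDiff ℝ ∞ (fun q : Cn 3 => (q k).im) := fun k =>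
    (Complex.imCLM.comp (ContinuousLinearMap.proj k : Cn 3 →L[ℝ] ℂ)).contDiff
  have hn : ContDiff ℝ ∞ nsq := by
    have h1 := ((((hre 1).mul (hre 1)).add ((him 1).mul (him 1))).add
      (((hre 2).mul (hre 2)).add ((him 2).mul (him 2))))
    have : nsq = fun q : Cn 3 => (q 1).re * (q 1).re + (q 1).im * (q 1).im +
        ((q 2).re * (q 2).re + (q 2).im * (q 2).im) := by
      funext q
      simp [nsq, Complex.normSq_apply]
    rw [this]
    exact h1
  exact hn.contDiffOn.div (him 0).contDiffOn fun p hp => (show 0 < (p 0).im from hp).ne'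

theorem contDiff_chi : ContDiff ℝ ∞ chi := by
  unfold chi
  exact Real.smoothTransition.contDiff.comp (contDiff_const.sub contDiff_id)

theorem chi_of_ge {x : ℝ} (hx : 2 ≤ x) : chi x = 0 := by
  unfold chi
  exact Real.smoothTransition.zero_of_nonpos (by linarith)

theorem chi_of_le {x : ℝ} (hx : x ≤ 1) : chi x = 1 := by
  unfold chi
  exact Real.smoothTransition.one_of_one_le (by linarith)

theorem deriv_chi_of_gt {x : ℝ} (hx : 2 < x) : deriv chi x = 0 := by
  have : chi =ᶠ[𝓝 x] fun _ => 0 := by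
    filter_upwards [lt_mem_nhds hx] with y hy
    exact chi_of_ge hy.le
  rw [this.deriv_eq, deriv_const]

theorem deriv_chi_of_lt {x : ℝ} (hx : x < 1) : deriv chi x = 0 := by
  have : chi =ᶠ[𝓝 x] fun _ => 1 := by
    filter_upwards [gt_mem_nhds hx] with y hy
    exact chi_of_le (le_of_lt hy)
  rw [this.deriv_eq, deriv_const]

theorem exists_chi_bound : ∃ M : ℝ, 0 ≤ M ∧ ∀ x, |deriv chi x| ≤ M := by
  have hc : Continuous (deriv chi) := contDiff_chi.continuous_deriv (by norm_num)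
  obtain ⟨M, hM⟩ := (isCompact_Icc (a := (1 : ℝ)) (b := 2)).exists_bound_of_continuousOn
    hc.continuousOn
  refine ⟨max M 0, le_max_right _ _, fun x => ?_⟩
  rcases lt_or_ge x 1 with h | h
  · rw [deriv_chi_of_lt h, abs_zero]; exact le_max_right _ _
  rcases lt_or_ge 2 x with h' | h'
  · rw [deriv_chi_of_gt h', abs_zero]; exact le_max_right _ _
  · exact (hM x ⟨h, h'⟩).trans (le_max_left _ _)

/-- the components of `∂ (chi (s / R))` -/
theorem hasFDerivAt_cut {p : Cn 3} (hp : p ∈ UU) (R : ℝ) :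
    HasFDerivAt (𝕜 := ℝ) (fun q => ((chi (ss q / R) : ℝ) : ℂ))
      (Complex.ofRealCLM.comp ((deriv chi (ss p / R) / R) • Ls p)) p := by
  have h1 : HasFDerivAt (𝕜 := ℝ) (fun q => ss q / R) ((1 / R) • Ls p) p := by
    have := (hasFDerivAt_ss hp).const_mul (R⁻¹)
    refine (this.congr_fderiv ?_).congr_of_eventuallyEq (Filter.Eventually.of_forall fun q => ?_)
    · simp
    · simp [div_eq_mul_inv, mul_comm]
  have hd : HasDerivAt chi (deriv chi (ss p / R)) (ss p / R) :=
    ((contDiff_chi.differentiable (by norm_num)) _).hasDerivAt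
  have h2 := hd.comp_hasFDerivAt p h1
  have h3 := Complex.ofRealCLM.hasFDerivAt.comp p h2
  refine h3.congr_fderiv ?_
  congr 1
  rw [smul_smul]
  congr 1
  ring

theorem sum_dz_cut {p : Cn 3} (hp : p ∈ UU) (R : ℝ) (v : Cn 3) :
    ∑ j, dz j (fun q => ((chi (ss q / R) : ℝ) : ℂ)) p * v j =
      (deriv chi (ss p / R) / R : ℝ) *
        ((conj (p 1) * v 1 + conj (p 2) * v 2 + ss p * (Complex.I / 2 * v 0)) / (p 0).im) := by
  have hy : ((p 0).im : ℂ) ≠ 0 := by exact_mod_cast (show 0 < (p 0).im from hp).ne'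
  have hI := Complex.I_sq
  simp only [dz, (hasFDerivAt_cut hp R).fderiv]
  have h1 : ∀ w : Cn 3, (Complex.ofRealCLM.comp ((deriv chi (ss p / R) / R) • Ls p)) w
      = (deriv chi (ss p / R) / R : ℝ) * ((Ls p w : ℝ) : ℂ) := by
    intro w
    simp
  simp only [h1, Fin.sum_univ_three]
  have e0 : Ls p (Pi.single 0 1) = 0 := by simp [Ls]
  have e0' : Ls p (Pi.single 0 Complex.I) = -(nsq p / (p 0).im ^ 2) := by simp [Ls]
  have e1 : Ls p (Pi.single 1 1) = (p 0).im⁻¹ * (2 * (p 1).re) := by simp [Ls]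
  have e1' : Ls p (Pi.single 1 Complex.I) = (p 0).im⁻¹ * (2 * (p 1).im) := by simp [Ls]
  have e2 : Ls p (Pi.single 2 1) = (p 0).im⁻¹ * (2 * (p 2).re) := by simp [Ls]
  have e2' : Ls p (Pi.single 2 Complex.I) = (p 0).im⁻¹ * (2 * (p 2).im) := by simp [Ls]
  rw [e0, e0', e1, e1', e2, e2']
  have hc : ∀ z : ℂ, conj z = (z.re : ℂ) - Complex.I * (z.im : ℂ) := by
    intro z
    apply Complex.ext <;> simp
  rw [hc, hc, ss]
  push_cast
  field_simp
  ring

end Pool.Agent.TH649.KG
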