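import Pool.Agent.TH649.KG.Der

/-! The divergence of the cut off vector density. -/

set_option autoImplicit false

open scoped Manifold ContDiff Topology ComplexConjugate MatrixGroups UpperHalfPlane Matrix
open MeasureTheory Set Filter

namespace Pool.Agent.TH649.KG

open Pool.Agent.W549.CY (Cn dz dzbar HermitianMetric chernRicci chernScalar)
open Pool.Agent.W711.KC (jj nn jj_ne im_mob det_eq)
open Pool.Agent.TH598.KG

theorem contDiffOn_adj {A : Cn 3 → M3} (hA : ∀ j k, ContDiffOn ℝ 1 (fun p => A p j k) UU)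
    (j k : Fin 3) : ContDiffOn ℝ 1 (fun p => (A p).adjugate j k) UU := by
  have hm : ∀ i1 j1 i2 j2 i3 j3 i4 j4 : Fin 3, ContDiffOn ℝ 1
      (fun p => A p i1 j1 * A p i2 j2 - A p i3 j3 * A p i4 j4) UU := fun i1 j1 i2 j2 i3 j3 i4 j4 =>
    ((hA i1 j1).mul (hA i2 j2)).sub ((hA i3 j3).mul (hA i4 j4))
  have hm' : ∀ i1 j1 i2 j2 i3 j3 i4 j4 : Fin 3, ContDiffOn ℝ 1
      (fun p => -(A p i1 j1 * A p i2 j2) + A p i3 j3 * A p i4 j4) UU :=
    fun i1 j1 i2 j2 i3 j3 i4 j4 =>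
    ((hA i1 j1).mul (hA i2 j2)).neg.add ((hA i3 j3).mul (hA i4 j4))
  simp only [Matrix.adjugate_fin_three]
  fin_cases j <;> fin_cases k
  · exact hm _ _ _ _ _ _ _ _
  · exact hm' _ _ _ _ _ _ _ _
  · exact hm _ _ _ _ _ _ _ _
  · exact hm' _ _ _ _ _ _ _ _
  · exact hm _ _ _ _ _ _ _ _
  · exact hm' _ _ _ _ _ _ _ _
  · exact hm _ _ _ _ _ _ _ _
  · exact hm' _ _ _ _ _ _ _ _
  · exact hm _ _ _ _ _ _ _ _

theorem contDiffOn_padj {a b : Cn 3 → M3} (ha : ∀ j k, ContDiffOn ℝ 1 (fun p => a p j k) UU)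
    (hb : ∀ j k, ContDiffOn ℝ 1 (fun p => b p j k) UU) (j k : Fin 3) :
    ContDiffOn ℝ 1 (fun p => padj (a p) (b p) j k) UU := by
  have h1 := contDiffOn_adj (A := fun p => a p + b p) (fun j k => (ha j k).add (hb j k)) j k
  exact (h1.sub (contDiffOn_adj ha j k)).sub (contDiffOn_adj hb j k)

theorem diffAt {f : Cn 3 → ℂ} (hf : ContDiffOn ℝ 1 f UU) {p : Cn 3} (hp : p ∈ UU) :
    DifferentiableAt ℝ f p :=
  (hf.differentiableOn one_ne_zero p hp).differentiableAt (isOpen_UU.mem_nhds hp)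

theorem DD_eq (x a b : M3) : DD x a b = ∑ j, ∑ k, x j k * padj a b k j := by
  simp [DD, Matrix.trace, Matrix.mul_apply]

theorem contDiffOn_WW {a b : Cn 3 → M3} {η : Fin 3 → Cn 3 → ℂ}
    (ha : ∀ j k, ContDiffOn ℝ 1 (fun p => a p j k) UU)
    (hb : ∀ j k, ContDiffOn ℝ 1 (fun p => b p j k) UU)
    (hη : ∀ k, ContDiffOn ℝ 1 (η k) UU) (j : Fin 3) : ContDiffOn ℝ 1 (WW a b η j) UU := by
  unfold WW
  exact ContDiffOn.sum fun k _ => (contDiffOn_padj ha hb k j).mul (hη k)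

theorem contDiffOn_cut (R : ℝ) : ContDiffOn ℝ 1 (fun p => ((chi (ss p / R) : ℝ) : ℂ)) UU := by
  have h1 : ContDiffOn ℝ ∞ (fun p => chi (ss p / R)) UU :=
    contDiff_chi.comp_contDiffOn (contDiffOn_ss.div_const R)
  have h2 : ContDiffOn ℝ ∞ (fun p => ((chi (ss p / R) : ℝ) : ℂ)) UU :=
    Complex.ofRealCLM.contDiff.comp_contDiffOn h1
  exact h2.of_le (by exact_mod_cast le_top)

/-- divergence of the cut off density -/
theorem div_cut {a b : Cn 3 → M3} {η : Fin 3 → Cn 3 → ℂ}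
    (ha : ∀ j k, ContDiffOn ℝ 1 (fun p => a p j k) UU)
    (hb : ∀ j k, ContDiffOn ℝ 1 (fun p => b p j k) UU)
    (hη : ∀ k, ContDiffOn ℝ 1 (η k) UU)
    (hdiv : ∀ p ∈ UU, ∀ k, ∑ j, dz j (fun q => padj (a q) (b q) k j) p = 0)
    (R : ℝ) {p : Cn 3} (hp : p ∈ UU) :
    ∑ j, dz j (fun q => ((chi (ss q / R) : ℝ) : ℂ) * WW a b η j q) p =
      (chi (ss p / R) : ℂ) * DD (Matrix.of fun j k => dz j (η k) p) (a p) (b p) +
      DD (Matrix.of fun j k => dz j (fun q => ((chi (ss q / R) : ℝ) : ℂ)) p * η k p) (a p) (b p) := by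
  have h1 : ∀ j, dz j (fun q => ((chi (ss q / R) : ℝ) : ℂ) * WW a b η j q) p =
      dz j (fun q => ((chi (ss q / R) : ℝ) : ℂ)) p * WW a b η j p +
      (chi (ss p / R) : ℂ) * ∑ k, (dz j (fun q => padj (a q) (b q) k j) p * η k p +
        padj (a p) (b p) k j * dz j (η k) p) := by
    intro j
    rw [dz_mul (diffAt (contDiffOn_cut R) hp) (diffAt (contDiffOn_WW ha hb hη j) hp)]
    congr 2
    unfold WW
    rw [dz_sum (f := fun k q => padj (a q) (b q) k j * η k q)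
      (fun k => diffAt ((contDiffOn_padj ha hb k j).mul (hη k)) hp)]
    refine Finset.sum_congr rfl fun k _ => ?_
    rw [dz_mul (diffAt (contDiffOn_padj ha hb k j) hp) (diffAt (hη k) hp)]
  rw [Finset.sum_congr rfl (fun j _ => h1 j)]
  simp only [DD_eq, Matrix.of_apply, WW]
  have h0 := hdiv p hp 0
  have h0' := hdiv p hp 1
  have h0'' := hdiv p hp 2
  simp only [Fin.sum_univ_three] at h0 h0' h0'' ⊢
  linear_combination (chi (ss p / R) : ℂ) * (η 0 p * h0 + η 1 p * h0' + η 2 p * h0'')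

theorem continuousOn_dz {f : Cn 3 → ℂ} (hf : ContDiffOn ℝ 1 f UU) (j : Fin 3) :
    ContinuousOn (dz j f) UU := by
  have h := hf.continuousOn_fderiv_of_isOpen isOpen_UU le_rfl
  unfold dz
  exact continuousOn_const.mul ((h.clm_apply continuousOn_const).sub
    (continuousOn_const.mul (h.clm_apply continuousOn_const)))

end Pool.Agent.TH649.KG
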