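import Pool.Agent.TH649.KG.Alg

/-! Equivariance of vector densities. -/

set_option autoImplicit false

open scoped Manifold ContDiff Topology ComplexConjugate MatrixGroups UpperHalfPlane Matrix
open MeasureTheory Set Filter

namespace Pool.Agent.TH649.KG

open Pool.Agent.W549.CY (Cn dz dzbar HermitianMetric chernRicci chernScalar)
open Pool.Agent.W711.KC (jj nn jj_ne im_mob det_eq)
open Pool.Agent.TH598.KG

/-- the Jacobian matrix of the action -/
noncomputable def Jm (g : SL(2, ℝ)) (p : Cn 3) : M3 :=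
  !![1 / jj g (p 0) ^ 2, 0, 0;
    -((g 1 0 : ℂ) * p 1) / jj g (p 0) ^ 2, 1 / jj g (p 0), 0;
    -((g 1 0 : ℂ) * p 2) / jj g (p 0) ^ 2, 0, 1 / jj g (p 0)]

theorem Fa_mem (g : SL(2, ℝ)) {p : Cn 3} (hp : p ∈ UU) : Fa g p ∈ UU := by
  show 0 < (nn g (p 0) / jj g (p 0)).im
  rw [im_mob g hp]
  have h1 : 0 < Complex.normSq (jj g (p 0)) := Complex.normSq_pos.2 (jj_ne g hp)
  have h2 : 0 < (p 0).im := hp
  positivity

theorem ss_Fa (g : SL(2, ℝ)) {p : Cn 3} (hp : p ∈ UU) : ss (Fa g p) = ss p := by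
  have h1 : 0 < Complex.normSq (jj g (p 0)) := Complex.normSq_pos.2 (jj_ne g hp)
  have h2 : 0 < (p 0).im := hp
  have e1 : (Fa g p) 0 = nn g (p 0) / jj g (p 0) := rfl
  have e2 : (Fa g p) 1 = p 1 / jj g (p 0) := rfl
  have e3 : (Fa g p) 2 = p 2 / jj g (p 0) := rfl
  unfold ss nsq
  rw [e1, e2, e3, im_mob g hp, map_div₀, map_div₀]
  field_simp

theorem hasDerivAt_mob (g : SL(2, ℝ)) {z : ℂ} (hz : 0 < z.im) :
    HasDerivAt (fun z => nn g z / jj g z) (1 / jj g z ^ 2) z := by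
  have h1 : HasDerivAt (fun z => nn g z) (g 0 0 : ℂ) z := by
    have := ((hasDerivAt_id z).const_mul (g 0 0 : ℂ)).add_const (g 0 1 : ℂ)
    simpa [nn] using this
  have h2 : HasDerivAt (fun z => jj g z) (g 1 0 : ℂ) z := by
    have := ((hasDerivAt_id z).const_mul (g 1 0 : ℂ)).add_const (g 1 1 : ℂ)
    simpa [jj] using this
  have h3 := h1.div h2 (jj_ne g hz)
  refine h3.congr_deriv ?_
  have hd : (g 0 0 : ℂ) * (g 1 1 : ℂ) - (g 0 1 : ℂ) * (g 1 0 : ℂ) = 1 := by
    exact_mod_cast congrArg (fun x : ℝ => (x : ℂ)) (det_eq g)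
  congr 1
  simp only [nn, jj]
  linear_combination hd

theorem hasDerivAt_jj (g : SL(2, ℝ)) (z : ℂ) : HasDerivAt (fun z => jj g z) (g 1 0 : ℂ) z := by
  have := ((hasDerivAt_id z).const_mul (g 1 0 : ℂ)).add_const (g 1 1 : ℂ)
  simpa [jj] using this

theorem hasFDerivAt_Fa (g : SL(2, ℝ)) {p : Cn 3} (hp : p ∈ UU) :
    HasFDerivAt (𝕜 := ℂ) (Fa g) (LinearMap.toContinuousLinearMap (Matrix.toLin' (Jm g p))) p := by
  have hp0 : HasFDerivAt (𝕜 := ℂ) (fun q : Cn 3 => q 0) (ContinuousLinearMap.proj 0) p :=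
    (ContinuousLinearMap.proj (R := ℂ) (φ := fun _ : Fin 3 => ℂ) 0).hasFDerivAt
  have hpk : ∀ k, HasFDerivAt (𝕜 := ℂ) (fun q : Cn 3 => q k) (ContinuousLinearMap.proj k) p :=
    fun k => (ContinuousLinearMap.proj (R := ℂ) (φ := fun _ : Fin 3 => ℂ) k).hasFDerivAt
  have hj := jj_ne g hp
  have hdiv : ∀ k : Fin 3, HasFDerivAt (𝕜 := ℂ) (fun q : Cn 3 => q k / jj g (q 0))
      ((1 / jj g (p 0)) • (ContinuousLinearMap.proj k : (Cn 3) →L[ℂ] ℂ) +
        (-((g 1 0 : ℂ) * p k) / jj g (p 0) ^ 2) • (ContinuousLinearMap.proj 0 : (Cn 3) →L[ℂ] ℂ)) p := by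
    intro k
    have h1 := (hasDerivAt_jj g (p 0)).comp_hasFDerivAt p hp0
    have h2 := ((hasDerivAt_inv hj).comp_hasFDerivAt p h1)
    have h3 := (hpk k).mul h2
    refine h3.congr_fderiv ?_ |>.congr_of_eventuallyEq ?_
    · ext v
      simp
      field_simp
      ring
    · exact Filter.Eventually.of_forall fun q => by simp [div_eq_mul_inv]
  rw [hasFDerivAt_pi']
  intro i
  fin_cases i
  · have h1 := (hasDerivAt_mob g hp).comp_hasFDerivAt p hp0
    refine h1.congr_fderiv ?_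
    ext v
    simp [Jm, dotProduct, Fin.sum_univ_three]
  · refine (hdiv 1).congr_fderiv ?_
    ext v
    simp [Jm, dotProduct, Fin.sum_univ_three]
    ring
  · refine (hdiv 2).congr_fderiv ?_
    ext v
    simp [Jm, Matrix.mulVec, dotProduct, Fin.sum_univ_three]
    ring

theorem fderiv_Fa (g : SL(2, ℝ)) {p : Cn 3} (hp : p ∈ UU) (v : Cn 3) :
    fderiv ℂ (Fa g) p v = (Jm g p).mulVec v := by
  rw [(hasFDerivAt_Fa g hp).fderiv]
  rfl

theorem det_Jm (g : SL(2, ℝ)) (p : Cn 3) : (Jm g p).det = 1 / jj g (p 0) ^ 4 := by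
  rw [Matrix.det_fin_three]
  simp [Jm]
  ring

theorem hf_pull (A J : M3) (v : Cn 3) :
    hf (Jᵀ * A * J.map conj) v = hf A (J.mulVec v) := by
  simp only [hf, Matrix.mul_apply, Matrix.transpose_apply, Matrix.map_apply, Matrix.mulVec,
    dotProduct, Fin.sum_univ_three, map_add, map_mul]
  ring

theorem eq_zero_of_I {a b : ℂ} (h1 : a + b = 0) (h2 : -(Complex.I * a) + Complex.I * b = 0) :
    a = 0 ∧ b = 0 := by
  have hI := Complex.I_ne_zero
  have h3 : b = a := by
    have : Complex.I * (b - a) = 0 := by linear_combination h2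
    rcases mul_eq_zero.1 this with h | h
    · exact absurd h hI
    · exact sub_eq_zero.1 h
  rw [h3] at h1
  have : a = 0 := by linear_combination (1 / 2) * h1
  exact ⟨this, by rw [h3, this]⟩

theorem eq_of_hf {A B : M3} (h : ∀ v : Cn 3, hf A v = hf B v) : A = B := by
  have h' : ∀ v : Cn 3, hf (A - B) v = 0 := by
    intro v
    have h1 := h v
    simp only [hf, Matrix.sub_apply, Fin.sum_univ_three] at h1 ⊢
    linear_combination h1
  generalize hC : A - B = C at h'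
  have hI := Complex.I_mul_I
  have e0 := h' ![1, 0, 0]
  have e1 := h' ![0, 1, 0]
  have e2 := h' ![0, 0, 1]
  have e01 := h' ![1, 1, 0]
  have e01' := h' ![1, Complex.I, 0]
  have e02 := h' ![1, 0, 1]
  have e02' := h' ![1, 0, Complex.I]
  have e12 := h' ![0, 1, 1]
  have e12' := h' ![0, 1, Complex.I]
  simp [hf, Fin.sum_univ_three] at e0 e1 e2 e01 e01' e02 e02' e12 e12'
  rw [e0, e1] at e01 e01'
  rw [e0, e2] at e02 e02'
  rw [e1, e2] at e12 e12'
  obtain ⟨a01, a10⟩ := eq_zero_of_I (a := C 0 1) (b := C 1 0) (by linear_combination e01)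
    (by linear_combination e01')
  obtain ⟨a02, a20⟩ := eq_zero_of_I (a := C 0 2) (b := C 2 0) (by linear_combination e02)
    (by linear_combination e02')
  obtain ⟨a12, a21⟩ := eq_zero_of_I (a := C 1 2) (b := C 2 1) (by linear_combination e12)
    (by linear_combination e12')
  have hC0 : C = 0 := by
    ext i j
    fin_cases i <;> fin_cases j <;> assumption
  rw [hC0] at hC
  exact sub_eq_zero.1 hC

theorem equi_mat {Γ : Subgroup SL(2, ℝ)} {a : Cn 3 → M3} (ha : Equi Γ a) {g : SL(2, ℝ)} (hg : g ∈ Γ)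
    {p : Cn 3} (hp : p ∈ UU) : a p = (Jm g p)ᵀ * a (Fa g p) * (Jm g p).map conj := by
  apply eq_of_hf
  intro v
  rw [hf_pull, ha g hg p hp v, fderiv_Fa g hp]

theorem equi01_vec {Γ : Subgroup SL(2, ℝ)} {η : Fin 3 → Cn 3 → ℂ} (hη : Equi01 Γ η) {g : SL(2, ℝ)}
    (hg : g ∈ Γ) {p : Cn 3} (hp : p ∈ UU) :
    (fun k => η k p) = ((Jm g p).map conj)ᵀ.mulVec (fun m => η m (Fa g p)) := by
  funext k
  have h := hη g hg p hp (Pi.single k 1)
  rw [fderiv_Fa g hp] at h
  fin_cases k <;>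
  simpa [Fin.sum_univ_three, Matrix.mulVec, dotProduct, Pi.single_apply, mul_comm] using h

/-- the vector density attached to two forms and a `(0,1)`-form -/
noncomputable def WW (a b : Cn 3 → M3) (η : Fin 3 → Cn 3 → ℂ) (j : Fin 3) (p : Cn 3) : ℂ :=
  ∑ k, padj (a p) (b p) k j * η k p

theorem padj_conj (J K A B : M3) : padj (J * A * K) (J * B * K) =
    K.adjugate * padj A B * J.adjugate := by
  unfold padj
  have h1 : J * A * K + J * B * K = J * (A + B) * K := by
    rw [Matrix.mul_add, Matrix.add_mul]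
  rw [h1]
  simp only [Matrix.adjugate_mul_distrib, Matrix.mul_sub, Matrix.sub_mul, Matrix.mul_assoc]

theorem WW_equi {Γ : Subgroup SL(2, ℝ)} {a b : Cn 3 → M3} {η : Fin 3 → Cn 3 → ℂ}
    (ha : Equi Γ a) (hb : Equi Γ b) (hη : Equi01 Γ η) {g : SL(2, ℝ)} (hg : g ∈ Γ)
    {p : Cn 3} (hp : p ∈ UU) :
    WW a b η 0 (Fa g p) = jj g (p 0) ^ 2 * conj (jj g (p 0)) ^ 4 * WW a b η 0 p := by
  have hj := jj_ne g hp
  have hjc : conj (jj g (p 0)) ≠ 0 := (map_ne_zero _).2 hj
  have hW : (fun j => WW a b η j p) = (padj (a p) (b p))ᵀ.mulVec (fun k => η k p) := by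
    funext j
    simp [WW, Matrix.mulVec, dotProduct]
  have hW' : (fun j => WW a b η j (Fa g p))
      = (padj (a (Fa g p)) (b (Fa g p)))ᵀ.mulVec (fun k => η k (Fa g p)) := by
    funext j
    simp [WW, Matrix.mulVec, dotProduct]
  have hdetc : ((Jm g p).map conj).det = conj ((Jm g p).det) := by
    exact ((starRingEnd ℂ).map_det (Jm g p)).symm
  have key : (Jm g p).mulVec (fun j => WW a b η j p)
      = ((Jm g p).det * conj ((Jm g p).det)) • (fun j => WW a b η j (Fa g p)) := by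
    rw [hW, hW', equi01_vec hη hg hp, equi_mat ha hg hp, equi_mat hb hg hp, padj_conj]
    rw [Matrix.mulVec_mulVec, Matrix.mulVec_mulVec, ← Matrix.smul_mulVec]
    congr 1
    rw [Matrix.transpose_mul, Matrix.transpose_mul]
    have e1 : (Jm g p)ᵀ.adjugateᵀ = (Jm g p).adjugate := by
      rw [← Matrix.adjugate_transpose, Matrix.transpose_transpose]
    rw [e1]
    have e2 : ((Jm g p).map conj).adjugateᵀ * ((Jm g p).map conj)ᵀ
        = (conj ((Jm g p).det)) • (1 : M3) := by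
      rw [← Matrix.transpose_mul, Matrix.mul_adjugate, hdetc, Matrix.transpose_smul,
        Matrix.transpose_one]
    calc Jm g p * ((Jm g p).adjugate * ((padj (a (Fa g p)) (b (Fa g p)))ᵀ *
          ((Jm g p).map conj).adjugateᵀ)) * ((Jm g p).map conj)ᵀ
        = (Jm g p * (Jm g p).adjugate) * ((padj (a (Fa g p)) (b (Fa g p)))ᵀ *
          (((Jm g p).map conj).adjugateᵀ * ((Jm g p).map conj)ᵀ)) := by
          simp only [Matrix.mul_assoc]
      _ = _ := by
          rw [e2, Matrix.mul_adjugate, Matrix.mul_smul, Matrix.mul_one, Matrix.smul_mul,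
            Matrix.one_mul, smul_smul]
  have h0 := congrFun key 0
  rw [det_Jm] at h0
  simp only [Pi.smul_apply, smul_eq_mul, map_div₀, map_one, map_pow] at h0
  have h1 : (Jm g p).mulVec (fun j => WW a b η j p) 0 = WW a b η 0 p / jj g (p 0) ^ 2 := by
    simp [Jm, Matrix.mulVec, dotProduct, Fin.sum_univ_three]
    ring
  rw [h1] at h0
  field_simp at h0
  linear_combination -h0

end Pool.Agent.TH649.KG
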