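import Pool.Agent.TH649.KG.Pot

/-! The bound of the differential of the potential, and the exactness identity. -/

set_option autoImplicit false

open scoped Manifold ContDiff Topology ComplexConjugate MatrixGroups UpperHalfPlane Matrix
open MeasureTheory Set Filter

namespace Pool.Agent.TH649.KG

open Pool.Agent.W549.CY (Cn dz dzbar HermitianMetric chernRicci chernScalar)
open Pool.Agent.W711.KC (jj nn jj_ne im_mob det_eq)
open Pool.Agent.TH598.KG

theorem Ls_sq_le {p : Cn 3} (hp : p ∈ UU) (v : Cn 3) :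
    (Ls p v) ^ 2 ≤ 4 * (ss p * (1 + ss p) ^ 2 * (hf (g0 p) v).re) := by
  have h1 := grad_bound hp v
  have hy : (p 0).im ≠ 0 := (show 0 < (p 0).im from hp).ne'
  set X : ℂ := (conj (p 1) * v 1 + conj (p 2) * v 2 + ss p * (Complex.I / 2 * v 0)) / (p 0).im
    with hX
  have h2 : Ls p v = 2 * X.re := by
    have hI : (Complex.I / 2 * v 0).re = -(v 0).im / 2 := by
      rw [div_mul_eq_mul_div, Complex.div_ofNat_re, Complex.I_mul_re]
    rw [hX, Complex.div_ofReal_re, Complex.add_re, Complex.add_re, Complex.re_ofReal_mul, hI,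
      Complex.mul_re, Complex.mul_re, ss]
    simp [Ls]
    field_simp
    ring
  rw [h2]
  have h3 : X.re ^ 2 ≤ Complex.normSq X := by
    rw [Complex.normSq_apply]
    nlinarith [mul_self_nonneg X.im]
  nlinarith

theorem log_det_g0 {p : Cn 3} (hp : p ∈ UU) :
    Real.log (g0 p).det.re + pot p = Real.log (1 + 2 * ss p) - Real.log (1 + ss p) - Real.log 4 := by
  have hy : 0 < (p 0).im := hp
  have hN := Nn_pos hp
  have h0 := nsq_nonneg p
  have hs : 0 ≤ ss p := div_nonneg h0 hy.le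
  have h1 : (g0 p).det.re = ((p 0).im + 2 * nsq p) / (4 * (p 0).im * Nn p ^ 4) := by
    rw [det_g0 hp]
    have : (((p 0).im + 2 * nsq p : ℝ) : ℂ) / (4 * ((p 0).im : ℂ) * (Nn p : ℂ) ^ 4)
        = ((((p 0).im + 2 * nsq p) / (4 * (p 0).im * Nn p ^ 4) : ℝ) : ℂ) := by push_cast; rfl
    rw [this, Complex.ofReal_re]
  have e1 : 1 + 2 * ss p = ((p 0).im + 2 * nsq p) / (p 0).im := by
    unfold ss
    field_simp
  have e2 : 1 + ss p = Nn p / (p 0).im := by
    unfold ss Nn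
    field_simp
  rw [h1, e1, e2, pot, Real.log_div (by positivity) (by positivity), Real.log_mul (by positivity)
    (by positivity), Real.log_mul (by positivity) (by positivity), Real.log_pow,
    Real.log_div (by positivity) (by positivity), Real.log_div (by positivity) (by positivity)]
  push_cast
  ring

theorem hasFDerivAt_log_det_g0 {p : Cn 3} (hp : p ∈ UU) :
    HasFDerivAt (𝕜 := ℝ) (fun q => Real.log (g0 q).det.re + pot q)
      ((1 / ((1 + 2 * ss p) * (1 + ss p))) • Ls p) p := by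
  have hy : 0 < (p 0).im := hp
  have h0 := nsq_nonneg p
  have hs : 0 ≤ ss p := div_nonneg h0 hy.le
  have h1 : HasFDerivAt (𝕜 := ℝ) (fun q => 1 + 2 * ss q) ((2 : ℝ) • Ls p) p :=
    ((hasFDerivAt_ss hp).const_mul 2).const_add 1
  have h2 : HasFDerivAt (𝕜 := ℝ) (fun q => 1 + ss q) (Ls p) p := (hasFDerivAt_ss hp).const_add 1
  have p1 : 1 + 2 * ss p ≠ 0 := by positivity
  have p2 : 1 + ss p ≠ 0 := by positivity
  have h3 := (Real.hasDerivAt_log p1).comp_hasFDerivAt p h1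
  have h4 := (Real.hasDerivAt_log p2).comp_hasFDerivAt p h2
  have h5 := (h3.sub h4).sub_const (Real.log 4)
  refine (h5.congr_fderiv ?_).congr_of_eventuallyEq ?_
  · ext v
    simp
    field_simp
    ring
  · filter_upwards [isOpen_UU.mem_nhds hp] with q hq
    rw [log_det_g0 hq]
    rfl

theorem cdiv {f g : Cn 3 → ℂ} (hf : ContDiffOn ℝ ∞ f UU) (hg : ContDiffOn ℝ ∞ g UU)
    (h0 : ∀ p ∈ UU, g p ≠ 0) : ContDiffOn ℝ ∞ (fun p => f p / g p) UU := by
  simp only [div_eq_mul_inv]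
  exact hf.mul (hg.inv h0)

theorem contDiffOn_g0 (j k : Fin 3) : ContDiffOn ℝ ∞ (fun p => g0 p j k) UU := by
  have hN : ContDiffOn ℝ ∞ (fun p => ((Nn p : ℝ) : ℂ)) UU := contDiffOn_ofReal contDiffOn_Nn
  have hy : ContDiffOn ℝ ∞ (fun p : Cn 3 => (((p 0).im : ℝ) : ℂ)) UU :=
    contDiffOn_ofReal contDiffOn_im0
  have hN0 : ∀ p ∈ UU, ((Nn p : ℝ) : ℂ) ≠ 0 := fun p hp => by exact_mod_cast (Nn_pos hp).ne'
  have hy0 : ∀ p ∈ UU, (((p 0).im : ℝ) : ℂ) ≠ 0 := fun p hp => by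
    exact_mod_cast (show 0 < (p 0).im from hp).ne'
  have hpk : ∀ k : Fin 3, ContDiffOn ℝ ∞ (fun p : Cn 3 => p k) UU := fun k =>
    (ContinuousLinearMap.proj k : Cn 3 →L[ℝ] ℂ).contDiff.contDiffOn
  have hck : ∀ k : Fin 3, ContDiffOn ℝ ∞ (fun p : Cn 3 => conj (p k)) UU := fun k =>
    Complex.conjCLE.contDiff.comp_contDiffOn (hpk k)
  have hN1 : ContDiffOn ℝ ∞ (fun p => 1 / ((Nn p : ℝ) : ℂ)) UU := cdiv contDiffOn_const hN hN0
  have hN2 : ∀ {f : Cn 3 → ℂ}, ContDiffOn ℝ ∞ f UU →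
      ContDiffOn ℝ ∞ (fun p => f p / ((Nn p : ℝ) : ℂ) ^ 2) UU := fun hf =>
    cdiv hf (hN.pow 2) fun p hp => pow_ne_zero 2 (hN0 p hp)
  have hTh : ∀ j k : Fin 3, ContDiffOn ℝ ∞ (fun p => Th p j k) UU := by
    intro j k
    fin_cases j <;> fin_cases k
    · exact ((cdiv contDiffOn_const (contDiffOn_const.mul (hN.pow 2)) fun p hp =>
        mul_ne_zero (by norm_num) (pow_ne_zero 2 (hN0 p hp))).neg).add
        (cdiv contDiffOn_const (contDiffOn_const.mul (hy.pow 2)) fun p hp =>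
        mul_ne_zero (by norm_num) (pow_ne_zero 2 (hy0 p hp)))
    · exact hN2 (contDiffOn_const.mul (hpk 1))
    · exact hN2 (contDiffOn_const.mul (hpk 2))
    · exact (hN2 (contDiffOn_const.mul (hck 1))).neg
    · exact hN1.sub (hN2 ((hck 1).mul (hpk 1)))
    · exact (hN2 ((hck 1).mul (hpk 2))).neg
    · exact (hN2 (contDiffOn_const.mul (hck 2))).neg
    · exact (hN2 ((hck 2).mul (hpk 1))).neg
    · exact hN1.sub (hN2 ((hck 2).mul (hpk 2)))
  have hom : ∀ j k : Fin 3, ContDiffOn ℝ ∞ (fun p => omC p j k) UU := by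
    intro j k
    fin_cases j <;> fin_cases k
    · exact cdiv contDiffOn_const (contDiffOn_const.mul (hy.pow 2)) fun p hp =>
        mul_ne_zero two_ne_zero (pow_ne_zero 2 (hy0 p hp))
    all_goals exact contDiffOn_const
  exact (hTh j k).add (contDiffOn_const.mul (hom j k))

theorem contDiffOn_rho0 (j k : Fin 3) : ContDiffOn ℝ ∞ (fun p => rho0 p j k) UU := by
  have h := contDiffOn_dz (contDiffOn_dzbar (contDiffOn_ofReal contDiffOn_pot) k) j
  exact h.congr fun p hp => rho0_eq' hp j k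

theorem g0_mul_I (p v : Cn 3) : (hf (g0 p) (Complex.I • v)).re = (hf (g0 p) v).re := by
  have : hf (g0 p) (Complex.I • v) = hf (g0 p) v := by
    simp only [hf, Pi.smul_apply, smul_eq_mul, map_mul, Complex.conj_I, Fin.sum_univ_three]
    have hI := Complex.I_sq
    ring_nf
    rw [hI]
    ring
  rw [this]

theorem dFp_bound {a : Cn 3 → M3} {CF : ℝ} (ha : ∀ j k, ContDiffOn ℝ ∞ (fun p => a p j k) UU)
    (hh : ∀ p ∈ UU, (a p).IsHermitian)
    (hpos : ∀ p ∈ UU, ∀ v : Cn 3, v ≠ 0 → 0 < (hf (a p) v).re)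
    (hF : ∀ p ∈ UU, ∀ v : Cn 3,
      (fderiv ℝ (fun q => Real.log (a q).det.re - Real.log (g0 q).det.re) p v) ^ 2 ≤
        CF * (hf (g0 p) v).re) {p : Cn 3} (hp : p ∈ UU) (v : Cn 3) :
    (fderiv ℝ (Fp a) p v) ^ 2 ≤ 2 * (CF + 1) * (hf (g0 p) v).re := by
  have hy : 0 < (p 0).im := hp
  have hs : 0 ≤ ss p := div_nonneg (nsq_nonneg p) hy.le
  have d1 : DifferentiableAt ℝ (fun q => Real.log (a q).det.re) p :=
    ((contDiffOn_log_det ha hh hpos).differentiableOn (by norm_num) p hp).differentiableAt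
      (isOpen_UU.mem_nhds hp)
  have d2 : DifferentiableAt ℝ (fun q => Real.log (g0 q).det.re) p :=
    ((contDiffOn_log_det contDiffOn_g0 (fun p _ => g0_herm p)
      (fun p hp v hv => g0_pos hp hv)).differentiableOn (by norm_num) p hp).differentiableAt
      (isOpen_UU.mem_nhds hp)
  have h2 := hasFDerivAt_log_det_g0 hp
  have h1 : HasFDerivAt (𝕜 := ℝ) (fun q => Real.log (a q).det.re - Real.log (g0 q).det.re)
    (fderiv ℝ (fun q => Real.log (a q).det.re - Real.log (g0 q).det.re) p) p :=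
    (d1.sub d2).hasFDerivAt
  have h3 := h1.add h2
  have h4 : HasFDerivAt (𝕜 := ℝ) (Fp a) _ p := h3.congr_of_eventuallyEq
    (Filter.Eventually.of_forall fun q => by simp [Fp]; ring)
  rw [h4.fderiv]
  have hb1 := hF p hp v
  have hb2 := Ls_sq_le hp v
  set A := fderiv ℝ (fun q => Real.log (a q).det.re - Real.log (g0 q).det.re) p v with hA
  have e : (fderiv ℝ (fun q => Real.log (a q).det.re - Real.log (g0 q).det.re) p +
      (1 / ((1 + 2 * ss p) * (1 + ss p))) • Ls p) v =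
      A + 1 / ((1 + 2 * ss p) * (1 + ss p)) * Ls p v := by
    simp [hA]
  rw [e]
  set B := 1 / ((1 + 2 * ss p) * (1 + ss p)) * Ls p v with hB
  have hg : 0 ≤ (hf (g0 p) v).re := by
    by_cases hv : v = 0
    · subst hv; simp [hf]
    · exact (g0_pos hp hv).le
  have hB2 : B ^ 2 ≤ (hf (g0 p) v).re := by
    rw [hB, mul_pow, div_pow, one_pow]
    have hden : 0 < ((1 + 2 * ss p) * (1 + ss p)) ^ 2 := by positivity
    rw [one_div_mul_eq_div, div_le_iff₀ hden]
    refine hb2.trans ?_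
    have : 4 * (ss p * (1 + ss p) ^ 2) ≤ ((1 + 2 * ss p) * (1 + ss p)) ^ 2 := by
      have : 0 ≤ (1 + ss p) ^ 2 := by positivity
      nlinarith [mul_nonneg this (sq_nonneg (ss p))]
    nlinarith [mul_le_mul_of_nonneg_right this hg]
  nlinarith [sq_nonneg (A - B)]

/-- the antilinear form `-∂̄ F` -/
noncomputable def et (a : Cn 3 → M3) (k : Fin 3) (p : Cn 3) : ℂ :=
  -dzbar k (fun q => ((Fp a q : ℝ) : ℂ)) p

theorem et_bound {a : Cn 3 → M3} {CF : ℝ} (ha : ∀ j k, ContDiffOn ℝ ∞ (fun p => a p j k) UU)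
    (hh : ∀ p ∈ UU, (a p).IsHermitian)
    (hpos : ∀ p ∈ UU, ∀ v : Cn 3, v ≠ 0 → 0 < (hf (a p) v).re)
    (hF : ∀ p ∈ UU, ∀ v : Cn 3,
      (fderiv ℝ (fun q => Real.log (a q).det.re - Real.log (g0 q).det.re) p v) ^ 2 ≤
        CF * (hf (g0 p) v).re) {p : Cn 3} (hp : p ∈ UU) (v : Cn 3) :
    ‖∑ k, et a k p * conj (v k)‖ ^ 2 ≤ √(|CF| + 1) ^ 2 * (hf (g0 p) v).re := by
  have hd : DifferentiableAt ℝ (Fp a) p :=
    ((contDiffOn_Fp ha hh hpos).differentiableOn (by norm_num) p hp).differentiableAt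
      (isOpen_UU.mem_nhds hp)
  have h1 := sum_dzbar hd.hasFDerivAt v
  have b1 := dFp_bound ha hh hpos hF hp v
  have b2 := dFp_bound ha hh hpos hF hp (Complex.I • v)
  rw [g0_mul_I] at b2
  have hg : 0 ≤ (hf (g0 p) v).re := by
    by_cases hv : v = 0
    · subst hv; simp [hf]
    · exact (g0_pos hp hv).le
  have e : ∑ k, et a k p * conj (v k) = -∑ k, dzbar k (fun q => ((Fp a q : ℝ) : ℂ)) p * conj (v k) := by
    simp only [et, neg_mul, Finset.sum_neg_distrib]
  rw [e, norm_neg, h1, Real.sq_sqrt (by positivity), norm_mul, mul_pow, ← Complex.normSq_eq_norm_sq,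
    ← Complex.normSq_eq_norm_sq, Complex.normSq_apply (((fderiv ℝ (Fp a) p) v : ℝ) + _)]
  simp only [Complex.add_re, Complex.add_im, Complex.mul_re, Complex.mul_im, Complex.I_re,
    Complex.I_im, Complex.ofReal_re, Complex.ofReal_im]
  have e2 : Complex.normSq (1 / 2) = 1 / 4 := by
    norm_num [Complex.normSq_apply]
  rw [e2]
  have h5 : CF ≤ |CF| := le_abs_self CF
  have h6 := mul_le_mul_of_nonneg_right h5 hg
  nlinarith

theorem dz_et {a : Cn 3 → M3} (ha : ∀ j k, ContDiffOn ℝ ∞ (fun p => a p j k) UU)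
    (hh : ∀ p ∈ UU, (a p).IsHermitian)
    (hpos : ∀ p ∈ UU, ∀ v : Cn 3, v ≠ 0 → 0 < (hf (a p) v).re) {p : Cn 3} (hp : p ∈ UU)
    (j k : Fin 3) : dz j (et a k) p = chernRicci a p j k - rho0 p j k := by
  have hc1 := contDiffOn_ofReal (contDiffOn_log_det ha hh hpos)
  have hc2 := contDiffOn_ofReal contDiffOn_pot
  have hd : ∀ {f : Cn 3 → ℂ}, ContDiffOn ℝ ∞ f UU → ∀ {q : Cn 3}, q ∈ UU →
      DifferentiableAt ℝ f q := fun hf q hq =>
    (hf.differentiableOn (by norm_num) q hq).differentiableAt (isOpen_UU.mem_nhds hq)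
  have e1 : ∀ q ∈ UU, et a k q = -1 * (dzbar k (fun w => ((Real.log (a w).det.re : ℝ) : ℂ)) q +
      dzbar k (fun w => ((pot w : ℝ) : ℂ)) q) := by
    intro q hq
    have h : fderiv ℝ (fun w => ((Fp a w : ℝ) : ℂ)) q =
      fderiv ℝ (fun w => ((Real.log (a w).det.re : ℝ) : ℂ)) q +
        fderiv ℝ (fun w => ((pot w : ℝ) : ℂ)) q := by
      rw [← fderiv_fun_add (hd hc1 hq) (hd hc2 hq)]
      congr 1
      funext w
      simp [Fp]
    unfold et dzbar
    rw [h]
    simp only [add_apply]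
    ring
  have dd1 := hd (contDiffOn_dzbar hc1 k) hp
  have dd2 := hd (contDiffOn_dzbar hc2 k) hp
  have dsum : DifferentiableAt ℝ (fun q => dzbar k (fun w => ((Real.log (a w).det.re : ℝ) : ℂ)) q +
      dzbar k (fun w => ((pot w : ℝ) : ℂ)) q) p := dd1.add dd2
  rw [dz_congr hp e1, dz_mul (differentiableAt_const _) dsum, dz_const, dz_add dd1 dd2,
    ← rho0_eq' hp j k]
  simp only [chernRicci, Matrix.of_apply]
  ring

end Pool.Agent.TH649.KG
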