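import Pool.Agent.TH649.KG.Rho
import Pool.Agent.TH343.J117

/-! The potential of the Chern-Ricci form in the chart. -/

set_option autoImplicit false

open scoped Manifold ContDiff Topology ComplexConjugate MatrixGroups UpperHalfPlane Matrix
open MeasureTheory Set Filter

namespace Pool.Agent.TH649.KG

open Pool.Agent.W549.CY (Cn dz dzbar HermitianMetric chernRicci chernScalar)
open Pool.Agent.W711.KC (jj nn jj_ne im_mob det_eq)
open Pool.Agent.TH598.KG

theorem hf_add' (A B : M3) (v : Cn 3) : hf (A + B) v = hf A v + hf B v := by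
  simp only [hf, Matrix.add_apply, Fin.sum_univ_three]
  ring

theorem hf_sub' (A B : M3) (v : Cn 3) : hf (A - B) v = hf A v - hf B v := by
  simp only [hf, Matrix.sub_apply, Fin.sum_univ_three]
  ring

theorem hf_smul' (c : ℂ) (A : M3) (v : Cn 3) : hf (c • A) v = c * hf A v := by
  simp only [hf, Matrix.smul_apply, Fin.sum_univ_three, smul_eq_mul]
  ring

theorem hf_omC (p v : Cn 3) : hf (omC p) v =
    ((Complex.normSq (v 0) / (2 * (p 0).im ^ 2) : ℝ) : ℂ) := by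
  push_cast
  rw [← Complex.mul_conj]
  simp [hf, omC, Fin.sum_univ_three]
  ring

theorem hf_g0_split (p v : Cn 3) : (hf (g0 p) v).re =
    (hf (Th p) v).re + 1 / 2 * (Complex.normSq (v 0) / (2 * (p 0).im ^ 2)) := by
  have : hf (g0 p) v = hf (Th p) v +
    ((1 / 2 * (Complex.normSq (v 0) / (2 * (p 0).im ^ 2)) : ℝ) : ℂ) := by
    unfold g0
    rw [hf_add', hf_smul', hf_omC]
    push_cast
    ring
  rw [this, Complex.add_re, Complex.ofReal_re]

theorem hf_rho0 (p v : Cn 3) : (hf (rho0 p) v).re =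
    3 * (hf (Th p) v).re - 2 * (Complex.normSq (v 0) / (2 * (p 0).im ^ 2)) := by
  have : hf (rho0 p) v = (3 : ℝ) * hf (Th p) v -
    ((2 * (Complex.normSq (v 0) / (2 * (p 0).im ^ 2)) : ℝ) : ℂ) := by
    unfold rho0
    rw [hf_sub', hf_smul', hf_smul', hf_omC]
    push_cast
    ring
  rw [this, Complex.sub_re, Complex.ofReal_re, Complex.re_ofReal_mul]

theorem Th_nonneg {p : Cn 3} (hp : p ∈ UU) (v : Cn 3) : 0 ≤ (hf (Th p) v).re := by
  have hy : 0 < (p 0).im := hp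
  have hN := Nn_pos hp
  have hNy : (p 0).im ≤ Nn p := by
    have := nsq_nonneg p
    unfold Nn
    linarith
  have h1 := hf_g0_split p v
  have h2 := hf_g0_eq hp v
  have h3 := Complex.normSq_nonneg (p 1 * v 2 - p 2 * v 1)
  have h4 := Complex.normSq_nonneg ((p 0).im * v 1 + p 1 * (Complex.I / 2 * v 0))
  have h5 := Complex.normSq_nonneg ((p 0).im * v 2 + p 2 * (Complex.I / 2 * v 0))
  have h6 := Complex.normSq_nonneg (v 0)
  have hc : 0 ≤ 1 / (4 * (p 0).im ^ 2) - 1 / (4 * (p 0).im * Nn p) := by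
    have : 1 / (4 * (p 0).im * Nn p) ≤ 1 / (4 * (p 0).im ^ 2) := by
      apply one_div_le_one_div_of_le (by positivity)
      nlinarith
    linarith
  have h7 : 0 ≤ (Complex.normSq (p 1 * v 2 - p 2 * v 1) +
      (Complex.normSq ((p 0).im * v 1 + p 1 * (Complex.I / 2 * v 0)) +
        Complex.normSq ((p 0).im * v 2 + p 2 * (Complex.I / 2 * v 0))) / (p 0).im) / Nn p ^ 2 := by
    positivity
  have h8 : 0 ≤ Complex.normSq (v 0) * (1 / (4 * (p 0).im ^ 2) - 1 / (4 * (p 0).im * Nn p)) :=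
    mul_nonneg h6 hc
  have h9 : 1 / 2 * (Complex.normSq (v 0) / (2 * (p 0).im ^ 2)) =
      Complex.normSq (v 0) * (1 / (2 * (p 0).im ^ 2)) - Complex.normSq (v 0) *
        (1 / (4 * (p 0).im ^ 2)) := by
    field_simp
    ring
  nlinarith

theorem bdd_rho0 : Bdd rho0 4 := by
  intro p hp v
  have h1 := Th_nonneg hp v
  have h2 : 0 ≤ Complex.normSq (v 0) / (2 * (p 0).im ^ 2) := by
    have := Complex.normSq_nonneg (v 0)
    positivity
  rw [hf_rho0, hf_g0_split, abs_le]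
  constructor <;> linarith

theorem rho0_herm (p : Cn 3) : (rho0 p).IsHermitian := by
  rw [Matrix.IsHermitian]
  ext i j
  rw [Matrix.conjTranspose_apply]
  fin_cases i <;> fin_cases j <;>
  simp [rho0, Th, omC]
  all_goals ring

theorem contDiffOn_dzbar {f : Cn 3 → ℂ} (hf : ContDiffOn ℝ ∞ f UU) (j : Fin 3) :
    ContDiffOn ℝ ∞ (dzbar j f) UU := by
  have h : ContDiffOn ℝ ∞ (fderiv ℝ f) UU := hf.fderiv_of_isOpen isOpen_UU (by exact le_rfl)
  unfold dzbar
  exact contDiffOn_const.mul ((h.clm_apply contDiffOn_const).add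
    (contDiffOn_const.mul (h.clm_apply contDiffOn_const)))

theorem contDiffOn_dz {f : Cn 3 → ℂ} (hf : ContDiffOn ℝ ∞ f UU) (j : Fin 3) :
    ContDiffOn ℝ ∞ (dz j f) UU := by
  have h : ContDiffOn ℝ ∞ (fderiv ℝ f) UU := hf.fderiv_of_isOpen isOpen_UU (by exact le_rfl)
  unfold dz
  exact contDiffOn_const.mul ((h.clm_apply contDiffOn_const).sub
    (contDiffOn_const.mul (h.clm_apply contDiffOn_const)))

theorem contDiffOn_im0 : ContDiffOn ℝ ∞ (fun q : Cn 3 => (q 0).im) UU :=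
  (Complex.imCLM.comp (ContinuousLinearMap.proj 0 : Cn 3 →L[ℝ] ℂ)).contDiff.contDiffOn

theorem contDiff_nsq : ContDiff ℝ ∞ nsq := by
  have hre : ∀ k : Fin 3, ContDiff ℝ ∞ (fun q : Cn 3 => (q k).re) := fun k =>
    (Complex.reCLM.comp (ContinuousLinearMap.proj k : Cn 3 →L[ℝ] ℂ)).contDiff
  have him : ∀ k : Fin 3, ContDiff ℝ ∞ (fun q : Cn 3 => (q k).im) := fun k =>
    (Complex.imCLM.comp (ContinuousLinearMap.proj k : Cn 3 →L[ℝ] ℂ)).contDiff
  have h1 := ((((hre 1).mul (hre 1)).add ((him 1).mul (him 1))).add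
    (((hre 2).mul (hre 2)).add ((him 2).mul (him 2))))
  have : nsq = fun q : Cn 3 => (q 1).re * (q 1).re + (q 1).im * (q 1).im +
      ((q 2).re * (q 2).re + (q 2).im * (q 2).im) := by
    funext q
    simp [nsq, Complex.normSq_apply]
  rw [this]
  exact h1

theorem contDiffOn_Nn : ContDiffOn ℝ ∞ Nn UU := by
  unfold Nn
  exact contDiffOn_im0.add contDiff_nsq.contDiffOn

theorem contDiffOn_pot : ContDiffOn ℝ ∞ pot UU := by
  unfold pot
  exact (contDiffOn_const.mul (contDiffOn_Nn.log fun p hp => (Nn_pos hp).ne')).add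
    (contDiffOn_im0.log fun p hp => (show 0 < (p 0).im from hp).ne')

/-! ### the determinant -/

theorem det_pos_of {g : M3} (hg : g.IsHermitian) (hp : ∀ v : Cn 3, v ≠ 0 → 0 < (hf g v).re) :
    ∃ d : ℝ, 0 < d ∧ g.det = d := by
  obtain ⟨P, Q, h1, h2, h3⟩ := Pool.Agent.TH343.J117.exists_root hg hp
  have hP : P.det ≠ 0 := by
    intro h0
    have := congrArg Matrix.det h1
    rw [Matrix.det_mul, h0, zero_mul, Matrix.det_one] at this
    exact zero_ne_one this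
  refine ⟨Complex.normSq P.det, Complex.normSq_pos.2 hP, ?_⟩
  rw [h3, Matrix.det_mul, Matrix.det_transpose]
  have := RingHom.map_det (starRingEnd ℂ) P
  have h4 : (P.map conj).det = conj P.det := by rw [this]; rfl
  rw [h4, Complex.mul_conj]

theorem contDiffOn_det {a : Cn 3 → M3} (ha : ∀ j k, ContDiffOn ℝ ∞ (fun p => a p j k) UU) :
    ContDiffOn ℝ ∞ (fun p => (a p).det) UU := by
  simp only [Matrix.det_fin_three]
  exact ((((((((ha 0 0).mul (ha 1 1)).mul (ha 2 2)).sub (((ha 0 0).mul (ha 1 2)).mul (ha 2 1))).sub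
    (((ha 0 1).mul (ha 1 0)).mul (ha 2 2))).add (((ha 0 1).mul (ha 1 2)).mul (ha 2 0))).add
    (((ha 0 2).mul (ha 1 0)).mul (ha 2 1))).sub (((ha 0 2).mul (ha 1 1)).mul (ha 2 0)))

theorem contDiffOn_det_re {a : Cn 3 → M3} (ha : ∀ j k, ContDiffOn ℝ ∞ (fun p => a p j k) UU) :
    ContDiffOn ℝ ∞ (fun p => (a p).det.re) UU :=
  Complex.reCLM.contDiff.comp_contDiffOn (contDiffOn_det ha)

theorem det_equi {Γ : Subgroup SL(2, ℝ)} {a : Cn 3 → M3} (heq : Equi Γ a) {g : SL(2, ℝ)}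
    (hg : g ∈ Γ) {p : Cn 3} (hp : p ∈ UU) :
    (a p).det.re = (a (Fa g p)).det.re / Complex.normSq (jj g (p 0)) ^ 4 := by
  rw [equi_mat heq hg hp, Matrix.det_mul, Matrix.det_mul, Matrix.det_transpose]
  have := RingHom.map_det (starRingEnd ℂ) (Jm g p)
  have h4 : ((Jm g p).map conj).det = conj (Jm g p).det := by rw [this]; rfl
  have e : (Jm g p).det * (a (Fa g p)).det * conj (Jm g p).det =
      ((Complex.normSq (Jm g p).det : ℝ) : ℂ) * (a (Fa g p)).det := by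
    rw [← Complex.mul_conj]
    ring
  rw [h4, e, Complex.re_ofReal_mul, det_Jm, map_div₀, map_pow, map_one]
  ring

theorem Nn_Fa (g : SL(2, ℝ)) {p : Cn 3} (hp : p ∈ UU) :
    Nn (Fa g p) = Nn p / Complex.normSq (jj g (p 0)) := by
  have h1 : 0 < Complex.normSq (jj g (p 0)) := Complex.normSq_pos.2 (jj_ne g hp)
  have e1 : (Fa g p) 0 = nn g (p 0) / jj g (p 0) := rfl
  have e2 : (Fa g p) 1 = p 1 / jj g (p 0) := rfl
  have e3 : (Fa g p) 2 = p 2 / jj g (p 0) := rfl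
  unfold Nn nsq
  rw [e1, e2, e3, im_mob g hp, map_div₀, map_div₀]
  field_simp

theorem pot_Fa (g : SL(2, ℝ)) {p : Cn 3} (hp : p ∈ UU) :
    pot (Fa g p) = pot p - 4 * Real.log (Complex.normSq (jj g (p 0))) := by
  have h1 : 0 < Complex.normSq (jj g (p 0)) := Complex.normSq_pos.2 (jj_ne g hp)
  have hy : 0 < (p 0).im := hp
  have hN := Nn_pos hp
  have e1 : (Fa g p) 0 = nn g (p 0) / jj g (p 0) := rfl
  unfold pot
  rw [Nn_Fa g hp, e1, im_mob g hp, Real.log_div hN.ne' h1.ne', Real.log_div hy.ne' h1.ne']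
  ring

/-- the potential of `ρ₀ - Ric a` -/
noncomputable def Fp (a : Cn 3 → M3) (q : Cn 3) : ℝ := Real.log (a q).det.re + pot q

theorem Fp_Fa {Γ : Subgroup SL(2, ℝ)} {a : Cn 3 → M3}
    (hh : ∀ p ∈ UU, (a p).IsHermitian) (hpos : ∀ p ∈ UU, ∀ v : Cn 3, v ≠ 0 → 0 < (hf (a p) v).re)
    (heq : Equi Γ a) {g : SL(2, ℝ)}
    (hg : g ∈ Γ) {p : Cn 3} (hp : p ∈ UU) : Fp a (Fa g p) = Fp a p := by
  have h1 : 0 < Complex.normSq (jj g (p 0)) := Complex.normSq_pos.2 (jj_ne g hp)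
  have hq := Fa_mem g hp
  obtain ⟨d, hd, hd'⟩ := det_pos_of (hh _ hq) (hpos _ hq)
  have hdr : (a (Fa g p)).det.re = d := by rw [hd', Complex.ofReal_re]
  unfold Fp
  rw [det_equi heq hg hp, hdr, pot_Fa g hp, Real.log_div hd.ne' (pow_pos h1 4).ne', Real.log_pow]
  push_cast
  ring

theorem contDiffOn_log_det {a : Cn 3 → M3} (ha : ∀ j k, ContDiffOn ℝ ∞ (fun p => a p j k) UU)
    (hh : ∀ p ∈ UU, (a p).IsHermitian)
    (hpos : ∀ p ∈ UU, ∀ v : Cn 3, v ≠ 0 → 0 < (hf (a p) v).re) :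
    ContDiffOn ℝ ∞ (fun q => Real.log (a q).det.re) UU := by
  refine (contDiffOn_det_re ha).log fun p hp => ?_
  obtain ⟨d, hd, hd'⟩ := det_pos_of (hh _ hp) (hpos _ hp)
  rw [hd', Complex.ofReal_re]
  exact hd.ne'

theorem contDiffOn_Fp {a : Cn 3 → M3} (ha : ∀ j k, ContDiffOn ℝ ∞ (fun p => a p j k) UU)
    (hh : ∀ p ∈ UU, (a p).IsHermitian)
    (hpos : ∀ p ∈ UU, ∀ v : Cn 3, v ≠ 0 → 0 < (hf (a p) v).re) :
    ContDiffOn ℝ ∞ (Fp a) UU :=
  (contDiffOn_log_det ha hh hpos).add contDiffOn_pot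

theorem contDiffOn_ofReal {f : Cn 3 → ℝ} (hf : ContDiffOn ℝ ∞ f UU) :
    ContDiffOn ℝ ∞ (fun q => ((f q : ℝ) : ℂ)) UU :=
  Complex.ofRealCLM.contDiff.comp_contDiffOn hf

/-! ### the antilinear part of the differential -/

theorem clm_expand (L : Cn 3 →L[ℝ] ℝ) (v : Cn 3) :
    L v = ∑ k, ((v k).re * L (Pi.single k 1) + (v k).im * L (Pi.single k Complex.I)) := by
  have hv : v = ∑ k, ((v k).re • (Pi.single k (1 : ℂ) : Cn 3) +
      (v k).im • (Pi.single k Complex.I : Cn 3)) := by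
    funext i
    simp only [Finset.sum_apply, Pi.add_apply, Pi.smul_apply, Pi.single_apply]
    rw [Finset.sum_eq_single i]
    · simp
    · intro b _ hb
      simp [hb.symm]
    · intro h
      exact absurd (Finset.mem_univ _) h
  conv_lhs => rw [hv]
  rw [map_sum]
  refine Finset.sum_congr rfl fun k _ => ?_
  rw [map_add, map_smul, map_smul, smul_eq_mul, smul_eq_mul]

theorem sum_dzbar {f : Cn 3 → ℝ} {L : Cn 3 →L[ℝ] ℝ} {p : Cn 3} (h : HasFDerivAt (𝕜 := ℝ) f L p)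
    (v : Cn 3) : ∑ k, dzbar k (fun q => ((f q : ℝ) : ℂ)) p * conj (v k) =
      (1 / 2) * (((L v : ℝ) : ℂ) + Complex.I * ((L (Complex.I • v) : ℝ) : ℂ)) := by
  rw [clm_expand L v, clm_expand L (Complex.I • v)]
  simp only [dzbar_ofReal h, Fin.sum_univ_three, conj_eq, Pi.smul_apply, smul_eq_mul,
    Complex.mul_re, Complex.mul_im, Complex.I_re, Complex.I_im]
  push_cast
  have hI := Complex.I_sq
  ring_nf
  rw [hI]
  ring

theorem fderivR_Fa (g : SL(2, ℝ)) {p : Cn 3} (hp : p ∈ UU) :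
    HasFDerivAt (𝕜 := ℝ) (Fa g) ((fderiv ℂ (Fa g) p).restrictScalars ℝ) p := by
  have h := hasFDerivAt_Fa g hp
  have h2 := h.fderiv
  rw [h2]
  exact h.restrictScalars ℝ

theorem equi01_of_inv {Γ : Subgroup SL(2, ℝ)} {f : Cn 3 → ℝ} (hf : ∀ p ∈ UU, DifferentiableAt ℝ f p)
    (hinv : ∀ g ∈ Γ, ∀ p ∈ UU, f (Fa g p) = f p) :
    Equi01 Γ (fun k p => -dzbar k (fun q => ((f q : ℝ) : ℂ)) p) := by
  intro g hg p hp v
  have h1 := (hf _ (Fa_mem g hp)).hasFDerivAt
  have h2 := h1.comp p (fderivR_Fa g hp)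
  have h3 : HasFDerivAt (𝕜 := ℝ) f ((fderiv ℝ f (Fa g p)).comp
      ((fderiv ℂ (Fa g) p).restrictScalars ℝ)) p := by
    refine h2.congr_of_eventuallyEq ?_
    filter_upwards [isOpen_UU.mem_nhds hp] with q hq
    exact (hinv g hg q hq).symm
  have e1 := sum_dzbar h3 v
  have e2 := sum_dzbar h1 (fderiv ℂ (Fa g) p v)
  simp only [neg_mul, Finset.sum_neg_distrib]
  rw [e1, e2]
  simp

end Pool.Agent.TH649.KG
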