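import Pool.Agent.TH649.KG.Div

/-! The form `ρ₀` in the chart. -/

set_option autoImplicit false

open scoped Manifold ContDiff Topology ComplexConjugate MatrixGroups UpperHalfPlane Matrix
open MeasureTheory Set Filter

namespace Pool.Agent.TH649.KG

open Pool.Agent.W549.CY (Cn dz dzbar HermitianMetric chernRicci chernScalar)
open Pool.Agent.W711.KC (jj nn jj_ne im_mob det_eq)
open Pool.Agent.TH598.KG

theorem dz_ofReal {f : Cn 3 → ℝ} {L : Cn 3 →L[ℝ] ℝ} {p : Cn 3} (h : HasFDerivAt (𝕜 := ℝ) f L p)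
    (j : Fin 3) : dz j (fun q => ((f q : ℝ) : ℂ)) p =
      (1 / 2) * (((L (Pi.single j 1) : ℝ) : ℂ) - Complex.I * ((L (Pi.single j Complex.I) : ℝ) : ℂ)) := by
  have h1 : HasFDerivAt (𝕜 := ℝ) (fun q => ((f q : ℝ) : ℂ)) (Complex.ofRealCLM.comp L) p :=
    Complex.ofRealCLM.hasFDerivAt.comp p h
  unfold dz
  rw [h1.fderiv]
  rfl

theorem dzbar_ofReal {f : Cn 3 → ℝ} {L : Cn 3 →L[ℝ] ℝ} {p : Cn 3}
    (h : HasFDerivAt (𝕜 := ℝ) f L p)
    (j : Fin 3) : dzbar j (fun q => ((f q : ℝ) : ℂ)) p =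
      (1 / 2) * (((L (Pi.single j 1) : ℝ) : ℂ) + Complex.I * ((L (Pi.single j Complex.I) : ℝ) : ℂ)) := by
  have h1 : HasFDerivAt (𝕜 := ℝ) (fun q => ((f q : ℝ) : ℂ)) (Complex.ofRealCLM.comp L) p :=
    Complex.ofRealCLM.hasFDerivAt.comp p h
  unfold dzbar
  rw [h1.fderiv]
  rfl

theorem dz_congr {f g : Cn 3 → ℂ} {p : Cn 3} (hp : p ∈ UU) (h : ∀ q ∈ UU, f q = g q) (j : Fin 3) :
    dz j f p = dz j g p := by
  have : f =ᶠ[𝓝 p] g := by
    filter_upwards [isOpen_UU.mem_nhds hp] with q hq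
    exact h q hq
  unfold dz
  rw [this.fderiv_eq]

theorem dz_inv {f : Cn 3 → ℂ} {p : Cn 3} (hf : DifferentiableAt ℝ f p) (h0 : f p ≠ 0) (j : Fin 3) :
    dz j (fun q => (f q)⁻¹) p = -(dz j f p) / f p ^ 2 := by
  have h1 := (hasFDerivAt_inv' (𝕜 := ℝ) h0).comp p hf.hasFDerivAt
  have h2 : fderiv ℝ (fun q => (f q)⁻¹) p = _ := h1.fderiv
  unfold dz
  rw [h2]
  simp
  field_simp
  ring

theorem dz_const (c : ℂ) (p : Cn 3) (j : Fin 3) : dz j (fun _ => c) p = 0 := by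
  unfold dz
  simp

theorem dz_proj (k j : Fin 3) (p : Cn 3) : dz j (fun q => q k) p = if k = j then 1 else 0 := by
  unfold dz
  have h : HasFDerivAt (𝕜 := ℝ) (fun q : Cn 3 => q k)
      (ContinuousLinearMap.proj k : Cn 3 →L[ℝ] ℂ) p :=
    (ContinuousLinearMap.proj k : Cn 3 →L[ℝ] ℂ).hasFDerivAt
  rw [h.fderiv]
  have hI := Complex.I_mul_I
  by_cases hkj : k = j
  · subst hkj
    simp
    ring_nf
  · simp [Pi.single_apply, hkj]

/-- the real derivative of `N` -/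
noncomputable def LN (p : Cn 3) : Cn 3 →L[ℝ] ℝ :=
  (Complex.imCLM.comp (ContinuousLinearMap.proj 0)) +
  ((2 * (p 1).re) • (Complex.reCLM.comp (ContinuousLinearMap.proj 1)) +
    (2 * (p 1).im) • (Complex.imCLM.comp (ContinuousLinearMap.proj 1)) +
    (2 * (p 2).re) • (Complex.reCLM.comp (ContinuousLinearMap.proj 2)) +
    (2 * (p 2).im) • (Complex.imCLM.comp (ContinuousLinearMap.proj 2)))

theorem hasFDerivAt_Nn (p : Cn 3) : HasFDerivAt (𝕜 := ℝ) Nn (LN p) p := by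
  have hre : ∀ k : Fin 3, HasFDerivAt (𝕜 := ℝ) (fun q : Cn 3 => (q k).re)
      (Complex.reCLM.comp (ContinuousLinearMap.proj k) : Cn 3 →L[ℝ] ℝ) p := fun k =>
    (Complex.reCLM.comp (ContinuousLinearMap.proj k : Cn 3 →L[ℝ] ℂ)).hasFDerivAt
  have him : ∀ k : Fin 3, HasFDerivAt (𝕜 := ℝ) (fun q : Cn 3 => (q k).im)
      (Complex.imCLM.comp (ContinuousLinearMap.proj k) : Cn 3 →L[ℝ] ℝ) p := fun k =>
    (Complex.imCLM.comp (ContinuousLinearMap.proj k : Cn 3 →L[ℝ] ℂ)).hasFDerivAt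
  have h1 := (him 0).add ((((hre 1).mul (hre 1)).add ((him 1).mul (him 1))).add
      (((hre 2).mul (hre 2)).add ((him 2).mul (him 2))))
  refine (h1.congr_fderiv ?_).congr_of_eventuallyEq (Filter.Eventually.of_forall fun q => ?_)
  · ext v
    simp [LN]
    ring
  · simp [Nn, nsq, Complex.normSq_apply]

theorem hasFDerivAt_yy (p : Cn 3) : HasFDerivAt (𝕜 := ℝ) (fun q : Cn 3 => (q 0).im)
      (Complex.imCLM.comp (ContinuousLinearMap.proj 0) : Cn 3 →L[ℝ] ℝ) p :=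
    (Complex.imCLM.comp (ContinuousLinearMap.proj 0 : Cn 3 →L[ℝ] ℂ)).hasFDerivAt

theorem conj_eq (z : ℂ) : conj z = (z.re : ℂ) - Complex.I * (z.im : ℂ) := by
  apply Complex.ext <;> simp

theorem dz_Nn (p : Cn 3) (j : Fin 3) : dz j (fun q => ((Nn q : ℝ) : ℂ)) p =
    ![-(Complex.I / 2), conj (p 1), conj (p 2)] j := by
  rw [dz_ofReal (hasFDerivAt_Nn p)]
  fin_cases j
  · simp [LN]; ring
  · simp [LN, conj_eq]; ring
  · simp [LN, conj_eq]; ring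

theorem dz_yy (p : Cn 3) (j : Fin 3) : dz j (fun q => (((q 0).im : ℝ) : ℂ)) p =
    ![-(Complex.I / 2), 0, 0] j := by
  rw [dz_ofReal (hasFDerivAt_yy p)]
  fin_cases j
  · simp; ring
  · simp
  · simp

/-- the potential of `ρ₀` -/
noncomputable def pot (q : Cn 3) : ℝ := 3 * Real.log (Nn q) + Real.log (q 0).im

theorem hasFDerivAt_pot {p : Cn 3} (hp : p ∈ UU) : HasFDerivAt (𝕜 := ℝ) pot
    ((3 / Nn p) • LN p + (1 / (p 0).im) •
      (Complex.imCLM.comp (ContinuousLinearMap.proj 0) : Cn 3 →L[ℝ] ℝ)) p := by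
  have hy : (p 0).im ≠ 0 := (show 0 < (p 0).im from hp).ne'
  have hN := (Nn_pos hp).ne'
  have h1 := ((Real.hasDerivAt_log hN).comp_hasFDerivAt p (hasFDerivAt_Nn p)).const_mul 3
  have h2 := (Real.hasDerivAt_log hy).comp_hasFDerivAt p (hasFDerivAt_yy p)
  refine ((h1.add h2).congr_fderiv ?_).congr_of_eventuallyEq
    (Filter.Eventually.of_forall fun q => ?_)
  · ext v
    simp
    ring
  · simp [pot]

theorem dzbar_pot {p : Cn 3} (hp : p ∈ UU) (k : Fin 3) :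
    dzbar k (fun q => ((pot q : ℝ) : ℂ)) p =
      ![Complex.I / 2 * (3 * ((Nn p : ℝ) : ℂ)⁻¹ + (((p 0).im : ℝ) : ℂ)⁻¹),
        3 * (p 1 * ((Nn p : ℝ) : ℂ)⁻¹), 3 * (p 2 * ((Nn p : ℝ) : ℂ)⁻¹)] k := by
  rw [dzbar_ofReal (hasFDerivAt_pot hp)]
  have hre : ∀ z : ℂ, z = (z.re : ℂ) + Complex.I * (z.im : ℂ) := by
    intro z
    apply Complex.ext <;> simp
  fin_cases k
  · simp [LN]; ring
  · have h := hre (p 1)
    simp [LN]
    linear_combination (-3 * (Nn p : ℂ)⁻¹) * h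
  · have h := hre (p 2)
    simp [LN]
    linear_combination (-3 * (Nn p : ℂ)⁻¹) * h

theorem diffAt_Nn (p : Cn 3) : DifferentiableAt ℝ (fun q => ((Nn q : ℝ) : ℂ)) p :=
  (Complex.ofRealCLM.hasFDerivAt.comp p (hasFDerivAt_Nn p)).differentiableAt

theorem diffAt_yy (p : Cn 3) : DifferentiableAt ℝ (fun q : Cn 3 => (((q 0).im : ℝ) : ℂ)) p :=
  (Complex.ofRealCLM.hasFDerivAt.comp p (hasFDerivAt_yy p)).differentiableAt

theorem diffAt_proj (k : Fin 3) (p : Cn 3) : DifferentiableAt ℝ (fun q : Cn 3 => q k) p :=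
  (ContinuousLinearMap.proj k : Cn 3 →L[ℝ] ℂ).differentiableAt

theorem dz_add {j : Fin 3} {f g : Cn 3 → ℂ} {p : Cn 3} (hf : DifferentiableAt ℝ f p)
    (hg : DifferentiableAt ℝ g p) :
    dz j (fun q => f q + g q) p = dz j f p + dz j g p := by
  unfold dz
  have h : fderiv ℝ (fun q => f q + g q) p = fderiv ℝ f p + fderiv ℝ g p := fderiv_fun_add hf hg
  rw [h]
  simp only [add_apply]
  ring

theorem rho0_eq' {p : Cn 3} (hp : p ∈ UU) (j k : Fin 3) :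
    rho0 p j k = dz j (dzbar k fun q => ((pot q : ℝ) : ℂ)) p := by
  have hy : ((p 0).im : ℂ) ≠ 0 := by exact_mod_cast (show 0 < (p 0).im from hp).ne'
  have hN : (Nn p : ℂ) ≠ 0 := by exact_mod_cast (Nn_pos hp).ne'
  rw [dz_congr hp (fun q hq => dzbar_pot hq k) j]
  have dNi : DifferentiableAt ℝ (fun q : Cn 3 => ((Nn q : ℝ) : ℂ)⁻¹) p := (diffAt_Nn p).inv hN
  have dyi : DifferentiableAt ℝ (fun q : Cn 3 => (((q 0).im : ℝ) : ℂ)⁻¹) p := (diffAt_yy p).inv hy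
  have dNi3 : DifferentiableAt ℝ (fun q : Cn 3 => 3 * ((Nn q : ℝ) : ℂ)⁻¹) p := dNi.const_mul 3
  have dc : ∀ c : ℂ, DifferentiableAt ℝ (fun _ : Cn 3 => c) p := fun c => differentiableAt_const c
  have dpN : ∀ k : Fin 3, DifferentiableAt ℝ (fun q : Cn 3 => q k * ((Nn q : ℝ) : ℂ)⁻¹) p :=
    fun k => (diffAt_proj k p).mul dNi
  have dsum : DifferentiableAt ℝ (fun q : Cn 3 => 3 * ((Nn q : ℝ) : ℂ)⁻¹ +
    (((q 0).im : ℝ) : ℂ)⁻¹) p := dNi3.add dyi
  have hI := Complex.I_mul_I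
  have e0 : dz j (fun q : Cn 3 => Complex.I / 2 * (3 * ((Nn q : ℝ) : ℂ)⁻¹ +
      (((q 0).im : ℝ) : ℂ)⁻¹)) p = rho0 p j 0 := by
    rw [dz_mul (dc _) dsum, dz_const, dz_add dNi3 dyi, dz_mul (dc _) dNi, dz_const,
      dz_inv (diffAt_Nn p) hN, dz_inv (diffAt_yy p) hy, dz_Nn, dz_yy]
    fin_cases j
    · simp [rho0, Th, omC]
      field_simp
      linear_combination (12 * ((p 0).im : ℂ) ^ 2 + 4 * (Nn p : ℂ) ^ 2) * hI
    · simp [rho0, Th, omC]
      field_simp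
    · simp [rho0, Th, omC]
      field_simp
  have e1 : dz j (fun q : Cn 3 => 3 * (q 1 * ((Nn q : ℝ) : ℂ)⁻¹)) p = rho0 p j 1 := by
    rw [dz_mul (dc _) (dpN 1), dz_const,
      dz_mul (diffAt_proj 1 p) dNi, dz_inv (diffAt_Nn p) hN, dz_Nn, dz_proj]
    fin_cases j
    · simp [rho0, Th, omC]
      field_simp
    · simp [rho0, Th, omC]
      field_simp
      ring
    · simp [rho0, Th, omC]
      field_simp
  have e2 : dz j (fun q : Cn 3 => 3 * (q 2 * ((Nn q : ℝ) : ℂ)⁻¹)) p = rho0 p j 2 := by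
    rw [dz_mul (dc _) (dpN 2), dz_const,
      dz_mul (diffAt_proj 2 p) dNi, dz_inv (diffAt_Nn p) hN, dz_Nn, dz_proj]
    fin_cases j
    · simp [rho0, Th, omC]
      field_simp
    · simp [rho0, Th, omC]
      field_simp
    · simp [rho0, Th, omC]
      field_simp
      ring
  fin_cases k
  · exact e0.symm
  · exact e1.symm
  · exact e2.symm

end Pool.Agent.TH649.KG
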